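import Pool.Agent.L7h73.RS.MassA

set_option autoImplicit false

/-!
Mass estimate (part `S_MASS` of the project RS).
-/

open Set Filter Topology MeasureTheory
open scoped ContDiff ComplexConjugate ENNReal

noncomputable section

namespace Pool.Agent.L7h73.RS

open Pool.Agent.L7h17.RS

theorem isClosed_Qc (n : ℕ) (r : ℝ) : IsClosed (Qc n r) := by
  have : Qc n r = ⋂ j, {z : EC n | |(z j).re| ≤ r ∧ |(z j).im| ≤ r} := by
    ext z; simp [Qc]
  rw [this]
  refine isClosed_iInter fun j => ?_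
  refine IsClosed.inter ?_ ?_
  · exact isClosed_le (Complex.continuous_re.comp (continuous_apply j)).abs continuous_const
  · exact isClosed_le (Complex.continuous_im.comp (continuous_apply j)).abs continuous_const

theorem isOpen_Qo (n : ℕ) (r : ℝ) : IsOpen (Qo n r) := by
  have : Qo n r = ⋂ j, {z : EC n | |(z j).re| < r ∧ |(z j).im| < r} := by
    ext z; simp [Qo]
  rw [this]
  refine isOpen_iInter_of_finite fun j => ?_
  refine IsOpen.inter ?_ ?_
  · exact isOpen_lt (Complex.continuous_re.comp (continuous_apply j)).abs continuous_const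
  · exact isOpen_lt (Complex.continuous_im.comp (continuous_apply j)).abs continuous_const

theorem isCompact_Qc (n : ℕ) (r : ℝ) : IsCompact (Qc n r) := by
  refine Metric.isCompact_of_isClosed_isBounded (isClosed_Qc n r) ?_
  refine (Metric.isBounded_closedBall (x := (0 : EC n)) (r := |r| + |r|)).subset ?_
  intro z hz
  rw [mem_closedBall_zero_iff, pi_norm_le_iff_of_nonneg (by positivity)]
  intro j
  refine (Complex.norm_le_abs_re_add_abs_im _).trans ?_
  exact add_le_add ((hz j).1.trans (le_abs_self r)) ((hz j).2.trans (le_abs_self r))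

/-- the square in the plane -/
def Sq (c : ℂ) (r : ℝ) : Set ℂ := {ζ | |(ζ - c).re| ≤ r ∧ |(ζ - c).im| ≤ r}

theorem Sq_eq (c : ℂ) (r : ℝ) : Sq c r = Complex.measurableEquivPi ⁻¹'
    Icc ![c.re - r, c.im - r] ![c.re + r, c.im + r] := by
  ext ζ
  rw [mem_preimage, Complex.measurableEquivPi_apply]
  simp only [Sq, mem_ofPred_eq, mem_Icc, Pi.le_def, Fin.forall_fin_two, Complex.sub_re,
    Complex.sub_im, abs_le]
  simp only [Matrix.cons_val_zero, Matrix.cons_val_one]
  constructor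
  · rintro ⟨⟨h1, h2⟩, h3, h4⟩
    exact ⟨⟨by linarith, by linarith⟩, by linarith, by linarith⟩
  · rintro ⟨⟨h1, h2⟩, h3, h4⟩
    exact ⟨⟨by linarith, by linarith⟩, by linarith, by linarith⟩

theorem Sq_meas (c : ℂ) (r : ℝ) : MeasurableSet (Sq c r) := by
  rw [Sq_eq]
  exact Complex.measurableEquivPi.measurable measurableSet_Icc

theorem Sq_vol (c : ℂ) {r : ℝ} (hr : 0 ≤ r) : volume (Sq c r) = ENNReal.ofReal ((2 * r) ^ 2) := by
  rw [Sq_eq, Complex.volume_preserving_equiv_pi.measure_preimage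
    measurableSet_Icc.nullMeasurableSet, Real.volume_Icc_pi, Fin.prod_univ_two]
  simp only [Matrix.cons_val_zero, Matrix.cons_val_one]
  rw [← ENNReal.ofReal_mul (by linarith)]
  congr 1
  ring

variable {N : ℕ}

theorem insertNth_mem (j : Fin (N + 1)) (ζ : ℂ) (w : Fin N → ℂ) (r : ℝ) :
    (j.insertNth (α := fun _ => ℂ) ζ w : EC (N + 1)) ∈ Qc (N + 1) r ↔
      (|ζ.re| ≤ r ∧ |ζ.im| ≤ r) ∧ w ∈ Qc N r := by
  constructor
  · intro h
    refine ⟨by simpa using h j, fun l => by simpa using h (j.succAbove l)⟩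
  · rintro ⟨h1, h2⟩ l
    rcases Fin.eq_self_or_eq_succAbove j l with rfl | ⟨l', rfl⟩
    · simpa using h1
    · simpa using h2 l'

/-- the bound of the integral over a square in the direction of `z_j` -/
theorem inner_le {O K : Set (EC (N + 1))} {σ : EC (N + 1) → F2 (N + 1)} {R : ℝ} (hR : 0 < R)
    (hg : Good O K σ) (hK : IsCompact K) (hO : Qc (N + 1) R ⊆ O) {C : ℝ} (hC : 0 ≤ C)
    (hbd : ∀ z ∈ Qc (N + 1) R, z ∉ Qo (N + 1) R → ‖σ z‖ ≤ C) (j : Fin (N + 1)) (m' : Fin N)
    {w : Fin N → ℂ} (hw : w ∈ Qc N R)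
    (hgood : ∀ (ζ : ℂ) (t : ℝ), (j.insertNth (α := fun _ => ℂ) ζ w : EC (N + 1)) +
      t • ex (j.succAbove m') ∉ K) :
    ∫⁻ ζ in Sq 0 R, ENNReal.ofReal (Sd σ j (j.insertNth (α := fun _ => ℂ) ζ w)) ≤
      ENNReal.ofReal (5 * (C * (2 * R) ^ 2)) := by
  set m := j.succAbove m' with hm
  set t₁ : ℝ := (w m').re with ht₁
  set p : EC (N + 1) := (j.insertNth (α := fun _ => ℂ) 0 w : EC (N + 1)) - t₁ • ex m with hp
  have hU : IsOpen (O \ K) := hg.isOpen.sdiff hK.isClosed
  have hmj : m ≠ j := Fin.succAbove_ne j m'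
  -- the points of the plane
  have hins : ∀ u : Fin 3 → ℝ, Ph j m p u =
      (j.insertNth (α := fun _ => ℂ) ((u 0 : ℂ) + (u 1 : ℂ) * Complex.I) w : EC (N + 1)) +
        (u 2 - t₁) • ex m := by
    intro u
    funext l
    rcases Fin.eq_self_or_eq_succAbove j l with rfl | ⟨l', rfl⟩
    · simp [Ph, hp, ex, ey, hmj.symm]
    · have h1 : j.succAbove l' ≠ j := Fin.succAbove_ne j l'
      by_cases h2 : l' = m'
      · subst h2
        simp [Ph, hp, ex, ey, h1, hm]
        ring
      · have h3 : j.succAbove l' ≠ m := fun h => h2 (Fin.succAbove_right_injective h)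
        simp [Ph, hp, ex, ey, h1, h3]
  have ht : |t₁| ≤ R := (hw m').1
  rw [abs_le] at ht
  have hmem : ∀ u : Fin 3 → ℝ, |u 0| ≤ R → |u 1| ≤ R → |u 2| ≤ R →
      Ph j m p u ∈ Qc (N + 1) R := by
    intro u h0 h1 h2 l
    rw [hins]
    rcases Fin.eq_self_or_eq_succAbove j l with rfl | ⟨l', rfl⟩
    · simpa [ex, hmj.symm] using ⟨h0, h1⟩
    · by_cases h3 : l' = m'
      · subst h3
        have := (hw l').2
        simpa [ex, hm, ht₁] using ⟨h2, this⟩
      · have h4 : j.succAbove l' ≠ m := fun h => h3 (Fin.succAbove_right_injective h)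
        have := hw l'
        simpa [ex, h4] using this
  set a : Fin 3 → ℝ := ![-R, -R, -R] with ha
  set b : Fin 3 → ℝ := ![R, R, t₁] with hb
  have hab : a ≤ b := by
    intro i
    fin_cases i
    · show -R ≤ R; linarith
    · show -R ≤ R; linarith
    · show -R ≤ t₁; exact ht.1
  have hbox0 : ∀ u ∈ Icc a b, |u 0| ≤ R ∧ |u 1| ≤ R ∧ |u 2| ≤ R := by
    intro u hu
    have h0 := hu.1 0
    have h0' := hu.2 0
    have h1 := hu.1 1
    have h1' := hu.2 1
    have h2 := hu.1 2
    have h2' := hu.2 2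
    simp only [ha, hb, Matrix.cons_val_zero, Matrix.cons_val_one, Matrix.cons_val] at *
    simp only [abs_le]
    exact ⟨⟨h0, h0'⟩, ⟨h1, h1'⟩, h2, by linarith [ht.2]⟩
  have hbox : ∀ u ∈ Icc a b, Ph j m p u ∈ O \ K := by
    intro u hu
    obtain ⟨h0, h1, h2⟩ := hbox0 u hu
    refine ⟨hO (hmem u h0 h1 h2), ?_⟩
    rw [hins]
    exact hgood _ _
  have hbd' : ∀ u ∈ Icc a b, (u 0 = a 0 ∨ u 0 = b 0 ∨ u 1 = a 1 ∨ u 1 = b 1 ∨ u 2 = a 2) →
      ‖σ (Ph j m p u)‖ ≤ C := by
    intro u hu h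
    obtain ⟨h0, h1, h2⟩ := hbox0 u hu
    refine hbd _ (hmem u h0 h1 h2) ?_
    intro hin
    have hj := hin j
    have hm2 := hin m
    rw [hins] at hj hm2
    have ej : ((j.insertNth (α := fun _ => ℂ) ((u 0 : ℂ) + (u 1 : ℂ) * Complex.I) w : EC (N + 1)) +
        (u 2 - t₁) • ex m) j = (u 0 : ℂ) + (u 1 : ℂ) * Complex.I := by
      simp [ex, hmj.symm]
    have em : (((j.insertNth (α := fun _ => ℂ) ((u 0 : ℂ) + (u 1 : ℂ) * Complex.I) w :
        EC (N + 1)) + (u 2 - t₁) • ex m) m).re = u 2 := by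
      simp [ex, hm, ht₁]
    rw [ej] at hj
    rw [em] at hm2
    simp at hj
    simp only [ha, hb, Matrix.cons_val_zero, Matrix.cons_val_one, Matrix.cons_val] at h
    have hRR : |R| = R := abs_of_pos hR
    rcases h with h | h | h | h | h
    · rw [h, abs_neg, hRR] at hj; linarith [hj.1]
    · rw [h, hRR] at hj; linarith [hj.1]
    · rw [h, abs_neg, hRR] at hj; linarith [hj.2]
    · rw [h, hRR] at hj; linarith [hj.2]
    · rw [h, abs_neg, hRR] at hm2; linarith [hm2.1]
  have key := stokes hU hg.smooth hg.closed j m p hab hbox hC hbd' (S := 2 * R) (by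
    intro i
    fin_cases i
    · show R - -R ≤ 2 * R; linarith
    · show R - -R ≤ 2 * R; linarith
    · show t₁ - -R ≤ 2 * R; linarith [ht.2])
  -- rewrite the integral
  have hfa : a ∘ (2 : Fin 3).succAbove = ![-R, -R] := by
    funext l; fin_cases l <;> rfl
  have hfb : b ∘ (2 : Fin 3).succAbove = ![R, R] := by
    funext l; fin_cases l <;> rfl
  rw [hfa, hfb] at key
  have hpt : ∀ x : Fin 2 → ℝ, Ph j m p ((2 : Fin 3).insertNth (b 2) x) =
      (j.insertNth (α := fun _ => ℂ) (Complex.measurableEquivPi.symm x) w : EC (N + 1)) := by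
    intro x
    rw [hins, Complex.measurableEquivPi_symm_apply]
    have h0 : (2 : Fin 3).insertNth (α := fun _ => ℝ) (b 2) x 0 = x 0 := rfl
    have h1 : (2 : Fin 3).insertNth (α := fun _ => ℝ) (b 2) x 1 = x 1 := rfl
    have h2 : (2 : Fin 3).insertNth (α := fun _ => ℝ) (b 2) x 2 = t₁ := rfl
    rw [h0, h1, h2, sub_self, zero_smul, add_zero]
  have hSq : Sq 0 R = Complex.measurableEquivPi ⁻¹' Icc ![-R, -R] ![R, R] := by
    rw [Sq_eq]; simp
  rw [hSq]
  have hmp := Complex.volume_preserving_equiv_pi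
  have e1 : ∫⁻ ζ in Complex.measurableEquivPi ⁻¹' Icc ![-R, -R] ![R, R],
      ENNReal.ofReal (Sd σ j (j.insertNth (α := fun _ => ℂ) ζ w)) =
      ∫⁻ x in Icc ![-R, -R] ![R, R],
        ENNReal.ofReal (σ (Ph j m p ((2 : Fin 3).insertNth (b 2) x)) ![ex j, ey j]) := by
    have := hmp.setLIntegral_comp_preimage_emb Complex.measurableEquivPi.measurableEmbedding
      (fun x => ENNReal.ofReal (σ (Ph j m p ((2 : Fin 3).insertNth (b 2) x)) ![ex j, ey j]))
      (Icc ![-R, -R] ![R, R])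
    rw [← this]
    refine setLIntegral_congr_fun (Complex.measurableEquivPi.measurable measurableSet_Icc) ?_
    intro ζ _
    show _ = ENNReal.ofReal (σ (Ph j m p ((2 : Fin 3).insertNth (b 2)
      (Complex.measurableEquivPi ζ))) ![ex j, ey j])
    rw [hpt, MeasurableEquiv.symm_apply_apply]
    rfl
  rw [e1, ← ofReal_integral_eq_lintegral_ofReal]
  · exact ENNReal.ofReal_le_ofReal key
  · -- integrability
    refine ContinuousOn.integrableOn_compact isCompact_Icc ?_
    have h1 : ContinuousOn (fun z => σ z ![ex j, ey j]) (O \ K) :=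
      ((ContinuousAlternatingMap.apply ℝ (EC (N + 1)) ℝ ![ex j, ey j]).contDiff.comp_contDiffOn
        hg.smooth).continuousOn
    refine h1.comp (f := fun x : Fin 2 → ℝ => Ph j m p ((2 : Fin 3).insertNth (b 2) x)) ?_ ?_
    · refine ((Ph_cont j m p).comp ?_).continuousOn
      refine continuous_pi fun l => ?_
      fin_cases l
      · exact continuous_apply 0
      · exact continuous_apply 1
      · exact continuous_const
    · intro x hx
      apply hbox
      refine ⟨fun l => ?_, fun l => ?_⟩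
      · fin_cases l
        · exact hx.1 0
        · exact hx.1 1
        · exact ht.1
      · fin_cases l
        · exact hx.2 0
        · exact hx.2 1
        · exact le_rfl
  · -- nonnegativity
    refine (ae_restrict_iff' measurableSet_Icc).2 (ae_of_all _ fun x hx => ?_)
    show (0 : ℝ) ≤ σ (Ph j m p ((2 : Fin 3).insertNth (b 2) x)) ![ex j, ey j]
    refine Sd_nonneg (hg.nonneg _ ?_) j
    apply hbox
    refine ⟨fun l => ?_, fun l => ?_⟩
    · fin_cases l
      · exact hx.1 0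
      · exact hx.1 1
      · exact ht.1
    · fin_cases l
      · exact hx.2 0
      · exact hx.2 1
      · exact le_rfl

theorem Sd_aem {O K : Set (EC (N + 1))} {σ : EC (N + 1) → F2 (N + 1)} (hg : Good O K σ)
    {A : Set (EC (N + 1))} (hA : MeasurableSet A) (hAO : A ⊆ O \ K) (j : Fin (N + 1)) :
    AEMeasurable (fun z => ENNReal.ofReal (Sd σ j z)) (volume.restrict A) := by
  have h1 : ContinuousOn (fun z => σ z ![ex j, ey j]) (O \ K) :=
    ((ContinuousAlternatingMap.apply ℝ (EC (N + 1)) ℝ ![ex j, ey j]).contDiff.comp_contDiffOn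
      hg.smooth).continuousOn
  exact ((h1.mono hAO).aemeasurable hA).ennreal_ofReal

/-- the integral of a diagonal component -/
theorem diag_le {O K : Set (EC (N + 1))} {σ : EC (N + 1) → F2 (N + 1)} {R : ℝ} (hR : 0 < R)
    (hg : Good O K σ) (hK : IsCompact K) (hO : Qc (N + 1) R ⊆ O) {C : ℝ} (hC : 0 ≤ C)
    (hbd : ∀ z ∈ Qc (N + 1) R, z ∉ Qo (N + 1) R → ‖σ z‖ ≤ C) (j : Fin (N + 1)) (m' : Fin N)
    (hnull : volume K = 0)
    (hbad : volume {z : EC (N + 1) | ∃ w ∈ K, ∃ (a : ℂ) (t : ℝ),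
      z = w + a • ex j + t • ex (j.succAbove m')} = 0)
    (c : EC (N + 1)) {s : ℝ} (hs : 0 < s) :
    ∫⁻ z in (Qc (N + 1) R ∩ {z | z - c ∈ Qc (N + 1) s}) \ K, ENNReal.ofReal (Sd σ j z) ≤
      ENNReal.ofReal (5 * (C * (2 * R) ^ 2)) * ENNReal.ofReal ((2 * s) ^ 2) ^ N := by
  classical
  set Bad := {z : EC (N + 1) | ∃ w ∈ K, ∃ (a : ℂ) (t : ℝ),
      z = w + a • ex j + t • ex (j.succAbove m')} with hBad
  set A : Set (EC (N + 1)) := (Qc (N + 1) R ∩ {z | z - c ∈ Qc (N + 1) s}) \ K with hA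
  have hAm : MeasurableSet A := by
    refine ((isClosed_Qc _ _).measurableSet.inter ?_).diff hK.isClosed.measurableSet
    exact ((isClosed_Qc (N + 1) s).preimage (continuous_id.sub continuous_const)).measurableSet
  have hAO : A ⊆ O \ K := fun z hz => ⟨hO hz.1.1, hz.2⟩
  set C₁ := ENNReal.ofReal (5 * (C * (2 * R) ^ 2)) with hC₁
  rw [← lintegral_indicator hAm]
  set g : EC (N + 1) → ℝ≥0∞ := A.indicator fun z => ENNReal.ofReal (Sd σ j z) with hgdef
  have hgm : AEMeasurable g volume := (aemeasurable_indicator_iff hAm).2 (Sd_aem hg hAm hAO j)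
  have hmp := (volume_preserving_piFinSuccAbove (fun _ : Fin (N + 1) => ℂ) j).symm
  set e := MeasurableEquiv.piFinSuccAbove (fun _ : Fin (N + 1) => ℂ) j with he
  have hes : ∀ (ζ : ℂ) (w : Fin N → ℂ), e.symm (ζ, w) =
      (j.insertNth (α := fun _ => ℂ) ζ w : EC (N + 1)) := fun ζ w => rfl
  rw [← hmp.lintegral_comp_emb e.symm.measurableEmbedding g]
  have hgm' : AEMeasurable (fun p : ℂ × (Fin N → ℂ) => g (e.symm p))
      ((volume : Measure ℂ).prod (volume : Measure (Fin N → ℂ))) :=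
    hgm.comp_quasiMeasurePreserving hmp.quasiMeasurePreserving
  rw [Measure.volume_eq_prod, lintegral_prod_symm _ hgm']
  -- the exceptional points
  have hae : ∀ᵐ w : Fin N → ℂ, ∀ (ζ : ℂ) (t : ℝ),
      (j.insertNth (α := fun _ => ℂ) ζ w : EC (N + 1)) + t • ex (j.succAbove m') ∉ K := by
    have h1 : ∀ᵐ z : EC (N + 1), z ∉ Bad := by
      rw [ae_iff]
      simpa using hbad
    have h2 : ∀ᵐ p : ℂ × (Fin N → ℂ) ∂((volume : Measure ℂ).prod (volume : Measure (Fin N → ℂ))),
        e.symm p ∉ Bad := hmp.quasiMeasurePreserving.ae h1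
    have h3 : ∀ᵐ q : (Fin N → ℂ) × ℂ ∂((volume : Measure (Fin N → ℂ)).prod (volume : Measure ℂ)),
        e.symm q.swap ∉ Bad :=
      (Measure.measurePreserving_swap).quasiMeasurePreserving.ae h2
    have h4 := Measure.ae_ae_of_ae_prod h3
    filter_upwards [h4] with w hw ζ t hmemK
    obtain ⟨ζ₀, hζ₀⟩ := hw.exists
    apply hζ₀
    show e.symm (ζ₀, w) ∈ Bad
    rw [hes]
    refine ⟨_, hmemK, ζ₀ - ζ, -t, ?_⟩
    funext l
    rcases Fin.eq_self_or_eq_succAbove j l with rfl | ⟨l', rfl⟩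
    · simp [ex]
    · have h5 : j.succAbove l' ≠ j := Fin.succAbove_ne j l'
      simp [ex, h5]
  set B : Set (Fin N → ℂ) := Set.pi univ fun l => Sq (c (j.succAbove l)) s with hB
  have hBm : MeasurableSet B := MeasurableSet.univ_pi fun l => Sq_meas _ _
  have hinner : ∀ᵐ w : Fin N → ℂ, ∫⁻ ζ : ℂ, g (e.symm (ζ, w)) ≤ B.indicator (fun _ => C₁) w := by
    filter_upwards [hae] with w hw
    by_cases hwB : w ∈ B
    · rw [indicator_of_mem hwB]
      by_cases hwR : w ∈ Qc N R
      · refine le_trans ?_ (inner_le hR hg hK hO hC hbd j m' hwR hw)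
        rw [← lintegral_indicator (Sq_meas 0 R)]
        refine lintegral_mono fun ζ => ?_
        rw [hes]
        by_cases hz : (j.insertNth (α := fun _ => ℂ) ζ w : EC (N + 1)) ∈ A
        · have h1 : ζ ∈ Sq 0 R := by
            have := ((insertNth_mem j ζ w R).1 hz.1.1).1
            simpa [Sq] using this
          rw [hgdef, indicator_of_mem hz, indicator_of_mem h1]
        · rw [hgdef, indicator_of_notMem hz]
          exact bot_le
      · have h0 : ∀ ζ : ℂ, g (e.symm (ζ, w)) = 0 := by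
          intro ζ
          rw [hes, hgdef, indicator_of_notMem]
          intro hz
          exact hwR ((insertNth_mem j ζ w R).1 hz.1.1).2
        simp only [h0, lintegral_zero]
        exact bot_le
    · rw [indicator_of_notMem hwB]
      have h0 : ∀ ζ : ℂ, g (e.symm (ζ, w)) = 0 := by
        intro ζ
        rw [hes, hgdef, indicator_of_notMem]
        intro hz
        apply hwB
        intro l _
        have := hz.1.2 (j.succAbove l)
        simpa [Sq] using this
      simp only [h0, lintegral_zero]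
      exact le_rfl
  refine (lintegral_mono_ae hinner).trans ?_
  rw [lintegral_indicator hBm, setLIntegral_const, hB, volume_pi_pi]
  simp only [Sq_vol _ hs.le, Finset.prod_const, Finset.card_univ, Fintype.card_fin]
  exact le_rfl

theorem s_MASS : S_MASS := by
  intro hN n hn O K σ R hR hg hK hKR hO
  obtain ⟨N, rfl⟩ : ∃ N, n = N + 1 := ⟨n - 1, by omega⟩
  have hKc := hK.1
  obtain ⟨hnull, hbad⟩ := hN (N + 1) hn K hK
  -- the bound near the boundary
  have hcomp : IsCompact (Qc (N + 1) R \ Qo (N + 1) R) :=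
    (isCompact_Qc _ _).diff (isOpen_Qo _ _)
  have hsub : Qc (N + 1) R \ Qo (N + 1) R ⊆ O \ K := fun z hz =>
    ⟨hO hz.1, fun h => hz.2 (hKR h)⟩
  obtain ⟨C₀, hC₀⟩ := hcomp.exists_bound_of_continuousOn (hg.smooth.continuousOn.mono hsub)
  set C := max C₀ 0 with hCdef
  have hC : 0 ≤ C := le_max_right _ _
  have hbd : ∀ z ∈ Qc (N + 1) R, z ∉ Qo (N + 1) R → ‖σ z‖ ≤ C := fun z h1 h2 =>
    (hC₀ z ⟨h1, h2⟩).trans (le_max_left _ _)
  set m' : Fin N := ⟨0, by omega⟩ with hm'
  set C₁ : ℝ := 5 * (C * (2 * R) ^ 2) with hC₁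
  have hC₁0 : 0 ≤ C₁ := by positivity
  refine ⟨2 * C₁ * 4 ^ N, by positivity, ?_⟩
  intro j k c s hs
  have hdiag : ∀ j, ∫⁻ z in (Qc (N + 1) R ∩ {z | z - c ∈ Qc (N + 1) s}) \ K,
      ENNReal.ofReal (Sd σ j z) ≤ ENNReal.ofReal C₁ * ENNReal.ofReal ((2 * s) ^ 2) ^ N := fun j =>
    diag_le hR hg hKc hO hC hbd j m' hnull (hbad j _ (Fin.succAbove_ne j m').symm) c hs
  set A : Set (EC (N + 1)) := Qc (N + 1) R ∩ {z | z - c ∈ Qc (N + 1) s} with hA
  have hAm : MeasurableSet (A \ K) := by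
    refine ((isClosed_Qc _ _).measurableSet.inter ?_).diff hKc.isClosed.measurableSet
    exact ((isClosed_Qc (N + 1) s).preimage (continuous_id.sub continuous_const)).measurableSet
  have hAO : A \ K ⊆ O \ K := fun z hz => ⟨hO hz.1.1, hz.2⟩
  have h1 : ∫⁻ z in A, ENNReal.ofReal ‖HH σ j k z‖ =
      ∫⁻ z in A \ K, ENNReal.ofReal ‖HH σ j k z‖ :=
    setLIntegral_congr (sdiff_null_ae_eq_self hnull).symm
  rw [h1]
  calc ∫⁻ z in A \ K, ENNReal.ofReal ‖HH σ j k z‖
      ≤ ∫⁻ z in A \ K, (ENNReal.ofReal (Sd σ j z) + ENNReal.ofReal (Sd σ k z)) := by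
        refine setLIntegral_mono' hAm fun z hz => ?_
        have hnn := hg.nonneg z (hAO hz)
        have h2 := HH_le hnn j k
        have h3 := Sd_nonneg hnn j
        have h4 := Sd_nonneg hnn k
        rw [← ENNReal.ofReal_add h3 h4]
        exact ENNReal.ofReal_le_ofReal (by linarith)
    _ = (∫⁻ z in A \ K, ENNReal.ofReal (Sd σ j z)) +
        ∫⁻ z in A \ K, ENNReal.ofReal (Sd σ k z) :=
        lintegral_add_left' (Sd_aem hg hAm hAO j) _
    _ ≤ ENNReal.ofReal C₁ * ENNReal.ofReal ((2 * s) ^ 2) ^ N +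
        ENNReal.ofReal C₁ * ENNReal.ofReal ((2 * s) ^ 2) ^ N := add_le_add (hdiag j) (hdiag k)
    _ = ENNReal.ofReal (2 * C₁ * 4 ^ N * s ^ (2 * (N + 1) - 2)) := by
        rw [← ENNReal.ofReal_pow (by positivity), ← ENNReal.ofReal_mul hC₁0,
          ← ENNReal.ofReal_add (by positivity) (by positivity)]
        congr 1
        have h2 : 2 * (N + 1) - 2 = 2 * N := by omega
        have h3 : (2 * s) ^ 2 = 4 * s ^ 2 := by ring
        rw [h2, h3, mul_pow, ← pow_mul]
        ring

end Pool.Agent.L7h73.RS
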