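import Pool.Agent.L7h17.RS.Defs

set_option autoImplicit false

/-!
Mass estimate (part `S_MASS` of the project RS): the trace is bounded by Stokes' theorem on
three-dimensional boxes.
-/

open Set Filter Topology MeasureTheory
open scoped ContDiff ComplexConjugate

noncomputable section

namespace Pool.Agent.L7h73.RS

open Pool.Agent.L7h17.RS

variable {n : ℕ}

/-! ### algebra of two-forms -/

theorem t_add (τ : F2 n) (x y z : EC n) : τ ![x + y, z] = τ ![x, z] + τ ![y, z] :=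
  MultilinearMap.cons_add (M := fun _ : Fin 2 => EC n)
    τ.toContinuousMultilinearMap.toMultilinearMap ![z] x y

theorem t_swap (τ : F2 n) (x y : EC n) : τ ![y, x] = - τ ![x, y] := by
  have h := τ.toAlternatingMap.map_swap ![x, y] (i := 0) (j := 1) (by simp)
  have h2 : ![x, y] ∘ (Equiv.swap (0 : Fin 2) 1) = ![y, x] := by
    funext i
    fin_cases i <;> simp
  rw [h2] at h
  exact h

theorem t_self (τ : F2 n) (x : EC n) : τ ![x, x] = 0 := by
  have := t_swap τ x x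
  linarith

theorem t_add' (τ : F2 n) (x y z : EC n) : τ ![z, x + y] = τ ![z, x] + τ ![z, y] := by
  rw [t_swap, t_add, t_swap τ z x, t_swap τ z y]; ring

theorem t_neg (τ : F2 n) (x z : EC n) : τ ![-x, z] = - τ ![x, z] := by
  have h := t_add τ x (-x) z
  rw [add_neg_cancel] at h
  have h0 := t_add τ 0 0 z
  rw [add_zero] at h0
  linarith

theorem t_neg' (τ : F2 n) (x z : EC n) : τ ![z, -x] = - τ ![z, x] := by
  rw [t_swap, t_neg, t_swap τ z x]; ring

theorem I_ex (j : Fin n) : Complex.I • (ex j : EC n) = ey j := by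
  funext i
  by_cases h : i = j
  · subst h; simp [ex, ey]
  · simp [ex, ey, h]

theorem I_ey (j : Fin n) : Complex.I • (ey j : EC n) = - ex j := by
  funext i
  by_cases h : i = j
  · subst h; simp [ex, ey]
  · simp [ex, ey, h]

/-- the diagonal components -/
def Sd (σ : EC n → F2 n) (j : Fin n) (z : EC n) : ℝ := σ z ![ex j, ey j]

theorem Sd_nonneg {σ : EC n → F2 n} {z : EC n} (h : ∀ v : EC n, 0 ≤ qq (σ z) v) (j : Fin n) :
    0 ≤ Sd σ j z := by
  have := h (ex j)
  unfold qq at this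
  rw [I_ex] at this
  exact this

theorem HH_le {σ : EC n → F2 n} {z : EC n} (h : ∀ v : EC n, 0 ≤ qq (σ z) v) (j k : Fin n) :
    ‖HH σ j k z‖ ≤ (Sd σ j z + Sd σ k z) / 2 := by
  set τ := σ z with hτ
  set P : ℝ := τ ![ex j, ex k] + τ ![ey j, ey k] with hP
  set q : ℝ := τ ![ex j, ey k] - τ ![ey j, ex k] with hq
  have h1 := h (ex j + ex k)
  have h2 := h (ex j + -ex k)
  have h3 := h (ex j + ey k)
  have h4 := h (ex j + -ey k)
  unfold qq at h1 h2 h3 h4
  simp only [smul_add, smul_neg, I_ex, I_ey, t_add, t_add', t_neg, t_neg', neg_neg] at h1 h2 h3 h4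
  have hS1 : Sd σ j z = τ ![ex j, ey j] := rfl
  have hS2 : Sd σ k z = τ ![ex k, ey k] := rfl
  have e1 : τ ![ex k, ey j] = - τ ![ey j, ex k] := t_swap _ _ _
  have e2 : τ ![ey k, ey j] = - τ ![ey j, ey k] := t_swap _ _ _
  have e3 : τ ![ey k, ex k] = - τ ![ex k, ey k] := t_swap _ _ _
  rw [e1] at h1 h2
  rw [e2, e3] at h3 h4
  have hPa : |P| ≤ Sd σ j z + Sd σ k z := by
    rw [abs_le, hS1, hS2, hP]
    constructor <;> linarith
  have hqa : |q| ≤ Sd σ j z + Sd σ k z := by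
    rw [abs_le, hS1, hS2, hq]
    constructor <;> linarith
  have hH : HH σ j k z = ((P : ℂ) + Complex.I * (q : ℂ)) / 4 := by
    unfold HH
    rw [← hτ, hP, hq]
    push_cast
    ring
  rw [hH, norm_div]
  have h5 : ‖(P : ℂ) + Complex.I * (q : ℂ)‖ ≤ |P| + |q| := by
    refine (norm_add_le _ _).trans ?_
    rw [norm_mul, Complex.norm_I, one_mul, Complex.norm_real, Complex.norm_real,
      Real.norm_eq_abs, Real.norm_eq_abs]
  have h6 : ‖(4 : ℂ)‖ = 4 := by norm_num
  rw [h6, div_le_iff₀ (by norm_num)]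
  linarith

theorem norm_ex (j : Fin n) : ‖(ex j : EC n)‖ = 1 := by
  unfold ex
  rw [Pi.norm_single]; simp

theorem norm_ey (j : Fin n) : ‖(ey j : EC n)‖ = 1 := by
  unfold ey
  rw [Pi.norm_single]; simp

theorem t_le (τ : F2 n) {x y : EC n} (hx : ‖x‖ = 1) (hy : ‖y‖ = 1) : |τ ![x, y]| ≤ ‖τ‖ := by
  have := τ.le_opNorm ![x, y]
  rw [Fin.prod_univ_two] at this
  simpa [hx, hy] using this

/-! ### Stokes' theorem -/

/-- the three-dimensional plane -/
def Ph (j m : Fin n) (p : EC n) (u : Fin 3 → ℝ) : EC n :=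
  p + (u 0 • ex j + u 1 • ey j + u 2 • ex m)

/-- its derivative -/
def PhL (j m : Fin n) : (Fin 3 → ℝ) →L[ℝ] EC n :=
  (ContinuousLinearMap.proj (R := ℝ) (φ := fun _ : Fin 3 => ℝ) 0).smulRight (ex j) +
    (ContinuousLinearMap.proj (R := ℝ) (φ := fun _ : Fin 3 => ℝ) 1).smulRight (ey j) +
    (ContinuousLinearMap.proj (R := ℝ) (φ := fun _ : Fin 3 => ℝ) 2).smulRight (ex m)

theorem Ph_eq (j m : Fin n) (p : EC n) (u : Fin 3 → ℝ) : Ph j m p u = p + PhL j m u := rfl

theorem Ph_fd (j m : Fin n) (p : EC n) (u : Fin 3 → ℝ) :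
    HasFDerivAt (Ph j m p) (PhL j m) u :=
  (PhL j m).hasFDerivAt.const_add p

theorem Ph_cont (j m : Fin n) (p : EC n) : Continuous (Ph j m p) :=
  continuous_const.add (PhL j m).continuous

theorem PhL0 (j m : Fin n) : PhL j m (Pi.single 0 1) = ex j := by
  simp [PhL]
theorem PhL1 (j m : Fin n) : PhL j m (Pi.single 1 1) = ey j := by
  simp [PhL]
theorem PhL2 (j m : Fin n) : PhL j m (Pi.single 2 1) = ex m := by
  simp [PhL]

/-- Stokes' theorem on a box -/
theorem stokes {U : Set (EC n)} (hU : IsOpen U) {σ : EC n → F2 n} (hs : ContDiffOn ℝ ∞ σ U)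
    (hc : ∀ z ∈ U, extDeriv σ z = 0) (j m : Fin n) (p : EC n) {a b : Fin 3 → ℝ} (hab : a ≤ b)
    (hbox : ∀ u ∈ Icc a b, Ph j m p u ∈ U) {C : ℝ} (hC : 0 ≤ C)
    (hbd : ∀ u ∈ Icc a b, (u 0 = a 0 ∨ u 0 = b 0 ∨ u 1 = a 1 ∨ u 1 = b 1 ∨ u 2 = a 2) →
      ‖σ (Ph j m p u)‖ ≤ C) {S : ℝ} (hS : ∀ i, b i - a i ≤ S) :
    ∫ x : Fin 2 → ℝ in Icc (a ∘ (2 : Fin 3).succAbove) (b ∘ (2 : Fin 3).succAbove),
      σ (Ph j m p ((2 : Fin 3).insertNth (b 2) x)) ![ex j, ey j] ≤ 5 * (C * S ^ 2) := by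
  classical
  let vv : Fin 3 → Fin 2 → EC n := ![![ey j, ex m], ![ex m, ex j], ![ex j, ey j]]
  let f : Fin 3 → EC n → ℝ := fun i z => σ z (vv i)
  have hf : ∀ i, ContDiffOn ℝ ∞ (f i) U := fun i =>
    (ContinuousAlternatingMap.apply ℝ (EC n) ℝ (vv i)).contDiff.comp_contDiffOn hs
  have hfd : ∀ i, ∀ z ∈ U, HasFDerivAt (f i) (fderiv ℝ (f i) z) z := fun i z hz =>
    (((hf i).contDiffAt (hU.mem_nhds hz)).differentiableAt (by simp)).hasFDerivAt
  have hvv : ∀ i l, ‖vv i l‖ = 1 := by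
    intro i l
    fin_cases i <;> fin_cases l <;> simp [vv, norm_ex, norm_ey]
  have hfle : ∀ i z, |f i z| ≤ ‖σ z‖ := by
    intro i z
    have := (σ z).le_opNorm (vv i)
    rw [Fin.prod_univ_two, hvv, hvv, mul_one, mul_one] at this
    exact this
  -- the divergence vanishes
  have hdiv : ∀ u ∈ Icc a b, ∑ i, ((fderiv ℝ (f i) (Ph j m p u)).comp (PhL j m))
      (Pi.single i 1) = 0 := by
    intro u hu
    have hz := hbox u hu
    have hd : DifferentiableAt ℝ σ (Ph j m p u) :=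
      (hs.contDiffAt (hU.mem_nhds hz)).differentiableAt (by simp)
    have h1 : ∑ i : Fin 3, (-1) ^ (i : ℕ) • fderiv ℝ
        (fun x => σ x (Fin.removeNth (α := fun _ => EC n) i ![ex j, ey j, ex m])) (Ph j m p u)
        ((![ex j, ey j, ex m] : Fin 3 → EC n) i) = 0 := by
      have h0 := extDeriv_apply hd ![ex j, ey j, ex m]
      rw [hc _ hz] at h0
      exact h0.symm
    rw [Fin.sum_univ_three] at h1
    have e0 : Fin.removeNth (α := fun _ => EC n) (0 : Fin 3) ![ex j, ey j, ex m] = vv 0 := by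
      funext l; fin_cases l <;> rfl
    have e1 : Fin.removeNth (α := fun _ => EC n) (1 : Fin 3) ![ex j, ey j, ex m] =
        ![ex j, ex m] := by
      funext l; fin_cases l <;> rfl
    have e2 : Fin.removeNth (α := fun _ => EC n) (2 : Fin 3) ![ex j, ey j, ex m] = vv 2 := by
      funext l; fin_cases l <;> rfl
    rw [e0, e1, e2] at h1
    have e3 : (fun x => σ x ![ex j, ex m]) = fun x => - f 1 x := by
      funext x
      exact t_swap (σ x) (ex m) (ex j)
    rw [e3] at h1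
    rw [Fin.sum_univ_three]
    simp only [ContinuousLinearMap.comp_apply, PhL0, PhL1, PhL2]
    have h2 : fderiv ℝ (fun x => - f 1 x) (Ph j m p u) = - fderiv ℝ (f 1) (Ph j m p u) := by
      exact fderiv_fun_neg
    rw [h2] at h1
    simpa using h1
  have key := integral_divergence_of_hasFDerivAt_off_countable' a b hab
    (fun i u => f i (Ph j m p u)) (fun i u => (fderiv ℝ (f i) (Ph j m p u)).comp (PhL j m))
    ∅ Set.countable_empty
    (fun i => (hf i).continuousOn.comp (Ph_cont j m p).continuousOn hbox)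
    (fun u hu i => by
      have hu' : u ∈ Icc a b := by
        have h := hu.1
        exact ⟨fun l => (h l (mem_univ l)).1.le, fun l => (h l (mem_univ l)).2.le⟩
      exact (hfd i _ (hbox u hu')).comp u (Ph_fd j m p u))
    (by
      refine IntegrableOn.congr_fun (f := fun _ => (0 : ℝ)) integrableOn_zero ?_
        measurableSet_Icc
      intro u hu
      exact (hdiv u hu).symm)
  rw [setIntegral_congr_fun (g := fun _ => (0 : ℝ)) measurableSet_Icc hdiv, integral_zero,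
    Fin.sum_univ_three] at key
  have hS0 : 0 ≤ S := (sub_nonneg.2 (hab 0)).trans (hS 0)
  -- the bounds of the faces
  have hins : ∀ (i : Fin 3) (c : ℝ), a i ≤ c → c ≤ b i → ∀ x : Fin 2 → ℝ,
      x ∈ Icc (a ∘ i.succAbove) (b ∘ i.succAbove) → i.insertNth c x ∈ Icc a b := by
    intro i c h1 h2 x hx
    refine ⟨fun l => ?_, fun l => ?_⟩
    · rcases Fin.eq_self_or_eq_succAbove i l with rfl | ⟨l', rfl⟩
      · simpa using h1
      · simpa using hx.1 l'
    · rcases Fin.eq_self_or_eq_succAbove i l with rfl | ⟨l', rfl⟩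
      · simpa using h2
      · simpa using hx.2 l'
  have hvol : ∀ i : Fin 3, volume.real (Icc (a ∘ i.succAbove) (b ∘ i.succAbove)) ≤ S ^ 2 := by
    intro i
    have h1 : a ∘ i.succAbove ≤ b ∘ i.succAbove := fun l => hab _
    rw [Measure.real, Real.volume_Icc_pi_toReal h1, Fin.prod_univ_two, pow_two]
    exact mul_le_mul (hS _) (hS _) (sub_nonneg.2 (hab _)) hS0
  have hface : ∀ (i i' : Fin 3) (c : ℝ), a i ≤ c → c ≤ b i →
      (∀ u ∈ Icc a b, u i = c → ‖σ (Ph j m p u)‖ ≤ C) →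
      |∫ x : Fin 2 → ℝ in Icc (a ∘ i.succAbove) (b ∘ i.succAbove),
        f i' (Ph j m p (i.insertNth c x))| ≤ C * S ^ 2 := by
    intro i i' c h1 h2 h3
    have h4 : ∀ x ∈ Icc (a ∘ i.succAbove) (b ∘ i.succAbove),
        ‖f i' (Ph j m p (i.insertNth c x))‖ ≤ C := by
      intro x hx
      exact (hfle i' _).trans (h3 _ (hins i c h1 h2 x hx) (by simp))
    have h5 := norm_setIntegral_le_of_norm_le_const (μ := volume)
      (isCompact_Icc.measure_lt_top) h4
    refine h5.trans ?_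
    exact mul_le_mul_of_nonneg_left (hvol i) hC
  have f0a := hface 0 0 (a 0) le_rfl (hab 0) fun u hu h => hbd u hu (Or.inl h)
  have f0b := hface 0 0 (b 0) (hab 0) le_rfl fun u hu h => hbd u hu (Or.inr (Or.inl h))
  have f1a := hface 1 1 (a 1) le_rfl (hab 1) fun u hu h => hbd u hu (Or.inr (Or.inr (Or.inl h)))
  have f1b := hface 1 1 (b 1) (hab 1) le_rfl fun u hu h =>
    hbd u hu (Or.inr (Or.inr (Or.inr (Or.inl h))))
  have f2a := hface 2 2 (a 2) le_rfl (hab 2) fun u hu h =>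
    hbd u hu (Or.inr (Or.inr (Or.inr (Or.inr h))))
  rw [abs_le] at f0a f0b f1a f1b f2a
  have hgoal : ∫ x : Fin 2 → ℝ in Icc (a ∘ (2 : Fin 3).succAbove) (b ∘ (2 : Fin 3).succAbove),
      σ (Ph j m p ((2 : Fin 3).insertNth (b 2) x)) ![ex j, ey j] =
      ∫ x : Fin 2 → ℝ in Icc (a ∘ (2 : Fin 3).succAbove) (b ∘ (2 : Fin 3).succAbove),
        f 2 (Ph j m p ((2 : Fin 3).insertNth (b 2) x)) := rfl
  rw [hgoal]
  linarith [f0a.1, f0a.2, f0b.1, f0b.2, f1a.1, f1a.2, f1b.1, f1b.2, f2a.1, f2a.2]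

end Pool.Agent.L7h73.RS
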